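import Pool.Agent.Lib.P962033.Config

/-!
For point sets in convex position the number of points needed to block the Delaunay
triangulation can exceed the number of points, even by a constant factor.
-/

namespace Pool.Agent.Results.MP_962033_co.BlockingLinear

/-- The Euclidean plane. -/
abbrev Plane := EuclideanSpace ℝ (Fin 2)

/-- General position: no three distinct points are collinear and no four distinct points
lie on a common circle. -/
def GeneralPosition (S : Set Plane) : Prop :=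
  (∀ a ∈ S, ∀ b ∈ S, ∀ c ∈ S, a ≠ b → a ≠ c → b ≠ c → ¬ Collinear ℝ {a, b, c}) ∧
  (∀ a ∈ S, ∀ b ∈ S, ∀ c ∈ S, ∀ d ∈ S, a ≠ b → a ≠ c → a ≠ d → b ≠ c → b ≠ d → c ≠ d →
    ¬ ∃ (o : Plane) (r : ℝ), dist a o = r ∧ dist b o = r ∧ dist c o = r ∧ dist d o = r)

/-- Convex position: no point of `P` lies in the convex hull of the others. -/
def ConvexPosition (P : Finset Plane) : Prop :=
  ConvexIndependent ℝ (fun p : P => (p : Plane))

/-- `W` blocks the Delaunay triangulation of `P`: every circle through two distinct points of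
`P` has a point of `P` or of `W` in its open interior. -/
def Blocks (P W : Finset Plane) : Prop :=
  ∀ p ∈ P, ∀ q ∈ P, p ≠ q → ∀ (o : Plane) (r : ℝ), dist p o = r → dist q o = r →
    ∃ z : Plane, (z ∈ P ∨ z ∈ W) ∧ dist z o < r

open Pool.Agent.Lib.P962033 in
theorem blk_of_blocks {N : ℕ} (S : Strip N) (P W : Finset Plane)
    (hP : ∀ z : Plane, z ∈ P ↔ ((z 0, z 1) : ℝ × ℝ) ∈ S.P) (hb : Blocks P W) :
    S.Blk (W.image (fun z : Plane => ((z 0, z 1) : ℝ × ℝ))) := by
  intro A hA B hB hAB m1 m2 hm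
  set a : Plane := !₂[A.1, A.2] with ha
  set b : Plane := !₂[B.1, B.2] with hbd
  have a0 : a 0 = A.1 := rfl
  have a1 : a 1 = A.2 := rfl
  have b0 : b 0 = B.1 := rfl
  have b1 : b 1 = B.2 := rfl
  have haP : a ∈ P := (hP a).mpr (by rw [a0, a1]; exact hA)
  have hbP : b ∈ P := (hP b).mpr (by rw [b0, b1]; exact hB)
  have hab : a ≠ b := by
    intro h
    apply hAB
    have h0 : A.1 = B.1 := by rw [← a0, ← b0, h]
    have h1 : A.2 = B.2 := by rw [← a1, ← b1, h]
    exact Prod.ext h0 h1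
  set o : Plane := !₂[A.1 + m1, A.2 + m2] with ho
  have o0 : o 0 = A.1 + m1 := rfl
  have o1 : o 1 = A.2 + m2 := rfl
  have hr : dist b o = dist a o := by
    have h2 : dist b o ^ 2 = dist a o ^ 2 := by
      rw [dist_sq_plane, dist_sq_plane, a0, a1, b0, b1, o0, o1]
      linear_combination hm
    exact (pow_left_inj₀ dist_nonneg dist_nonneg (by norm_num)).mp h2
  obtain ⟨z, hz, hd⟩ := hb a haP b hbP hab o (dist a o) rfl hr
  refine ⟨(z 0, z 1), ?_, ?_⟩
  · rcases hz with hz | hz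
    · exact Or.inl ((hP z).mp hz)
    · exact Or.inr (Finset.mem_image_of_mem _ hz)
  · have h3 := (dist_lt_plane z a o).mp hd
    rw [a0, a1, o0, o1] at h3
    unfold HitP
    simp only
    linarith

/-- There are sets `P` of arbitrarily many points in convex and general position in the plane
such that every set `W` blocking the Delaunay triangulation of `P` has at least
`(1 + ε) |P|` points, with a fixed `ε > 0`. -/
theorem result : ∃ ε : ℝ, 0 < ε ∧ ∀ n₀ : ℕ, ∃ P : Finset Plane,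
    n₀ ≤ P.card ∧ ConvexPosition P ∧ GeneralPosition (P : Set Plane) ∧
    ∀ W : Finset Plane, Blocks P W → (1 + ε) * (P.card : ℝ) ≤ (W.card : ℝ) := by
  obtain ⟨Nb, hNb⟩ : ∃ Nb : ℕ, Nb = 44402400 := ⟨_, rfl⟩
  obtain ⟨Lb, hLb⟩ : ∃ Lb : ℕ, Lb = 90 + 300 * Nb := ⟨_, rfl⟩
  have hLb1 : 1 ≤ Lb := by omega
  have hLbR : (1 : ℝ) ≤ Lb := by exact_mod_cast hLb1
  refine ⟨1 / (1000 * Lb), by positivity, ?_⟩
  intro n₀
  obtain ⟨K, hK⟩ : ∃ K : ℕ, K = n₀ + 4 := ⟨_, rfl⟩
  obtain ⟨N, hN⟩ : ∃ N : ℕ, N = K * Lb := ⟨_, rfl⟩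
  obtain ⟨S, P, hcard, hconv, hgen, hP⟩ := Pool.Agent.Lib.P962033.exists_config N
  have hKN : K ≤ N := by
    rw [hN]; exact Nat.le_mul_of_pos_right K hLb1
  refine ⟨P, by rw [hcard]; omega, hconv, hgen, ?_⟩
  intro W hb
  have hblk := blk_of_blocks S P W hP hb
  have hbound := Pool.Agent.Lib.P962033.strip_bound K Nb Lb N hNb.ge hLb hN S _ hblk
  have hW : (W.image (fun z : Plane => ((z 0, z 1) : ℝ × ℝ))).card ≤ W.card :=
    Finset.card_image_le
  have h1 : 401 * N + K ≤ W.card := by omega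
  have h1R : 401 * (N : ℝ) + K ≤ W.card := by exact_mod_cast h1
  have hNR : (N : ℝ) = K * Lb := by rw [hN]; push_cast; ring
  have hK4 : (4 : ℝ) ≤ K := by
    have : 4 ≤ K := by omega
    exact_mod_cast this
  rw [hcard]
  push_cast
  have key : 1 / (1000 * (Lb : ℝ)) * (401 * N + 2) ≤ K - 2 := by
    rw [hNR, div_mul_eq_mul_div, div_le_iff₀ (by positivity)]
    nlinarith
  linarith

end Pool.Agent.Results.MP_962033_co.BlockingLinear
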